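import Pool.Agent.NTW.StmtsA

/-!
Row BXT of table ntw (MP_e54c4c_gt): pair boxes of dimension at least three are strictly convex.
-/

set_option autoImplicit false

open Matrix Filter Topology

namespace Pool.Agent.NTW.H90

open Pool.Agent.PFS Pool.Agent.PFJ Pool.Agent.NTS Pool.Agent.NTW

variable {n K : ℕ}

/-- the factors of the box of PFJ belonging to a pair box -/
noncomputable def LL (w : Fin K → V n) (i j : Fin K) (L : Submodule ℝ (V n)) (a : Fin K) :
    Submodule ℝ (V n) :=
  if a = i then L else if a = j then ⊥ else Submodule.span ℝ {w a}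

/-- the index map of the box of PFJ belonging to a pair box -/
def bb (i j : Fin K) (m : Fin K) : Fin K := if m = j then i else m

lemma LL_i (w : Fin K → V n) (i j : Fin K) (L : Submodule ℝ (V n)) : LL w i j L i = L := by
  unfold LL
  rw [if_pos rfl]

lemma LL_j (w : Fin K → V n) {i j : Fin K} (hij : i ≠ j) (L : Submodule ℝ (V n)) :
    LL w i j L j = ⊥ := by
  unfold LL
  rw [if_neg hij.symm, if_pos rfl]

lemma LL_o (w : Fin K → V n) {i j a : Fin K} (hi : a ≠ i) (hj : a ≠ j) (L : Submodule ℝ (V n)) :
    LL w i j L a = Submodule.span ℝ {w a} := by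
  unfold LL
  rw [if_neg hi, if_neg hj]

lemma bb_j (i j : Fin K) : bb i j j = i := by
  unfold bb
  rw [if_pos rfl]

lemma bb_o {i j m : Fin K} (hj : m ≠ j) : bb i j m = m := by
  unfold bb
  rw [if_neg hj]

theorem bxt (h : PbfStmt) : BxtStmt := by
  intro n C Γ hC K hK hmax w hw i j hij L hPB hL x hx y hy hxc hyc hind
  have hP : PCone C := hC.toPCone
  have hpbf := (((h n C hP K w hw.1 i j hij).1 L hPB).2.2).1
  have hbox : Box C Γ (LL w i j L) w (bb i j) := by
    refine ⟨hw, ?_, ?_, ?_, ?_, ?_, ?_⟩
    · intro m
      by_cases hmj : m = j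
      · rw [hmj, bb_j, LL_i]
        exact hPB.right
      · rw [bb_o hmj]
        by_cases hmi : m = i
        · rw [hmi, LL_i]
          exact hPB.left
        · rw [LL_o w hmi hmj]
          exact Submodule.mem_span_singleton_self _
    · intro z hz hzc
      have hzi : z i ∈ L := by
        have := hz i
        rwa [LL_i] at this
      have hzj : z j = 0 := by
        have := hz j
        rw [LL_j w hij] at this
        exact (Submodule.mem_bot ℝ).mp this
      have hex : ∀ a, ∃ r : ℝ, a ≠ i → a ≠ j → z a = r • w a := by
        intro a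
        by_cases hai : a = i
        · exact ⟨0, fun h1 => absurd hai h1⟩
        by_cases haj : a = j
        · exact ⟨0, fun _ h1 => absurd haj h1⟩
        have := hz a
        rw [LL_o w hai haj] at this
        obtain ⟨r, hr⟩ := Submodule.mem_span_singleton.mp this
        exact ⟨r, fun _ _ => hr.symm⟩
      choose r hr using hex
      have hsum : ∑ a, z a = z i + ∑ m ∈ (Finset.univ.erase i).erase j, r m • w m := by
        rw [← Finset.add_sum_erase Finset.univ z (Finset.mem_univ i)]
        rw [← Finset.add_sum_erase (Finset.univ.erase i) z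
          (Finset.mem_erase.mpr ⟨hij.symm, Finset.mem_univ j⟩)]
        rw [hzj, zero_add]
        refine congrArg (fun q => z i + q) (Finset.sum_congr rfl fun m hm => ?_)
        rw [Finset.mem_erase, Finset.mem_erase] at hm
        exact hr m hm.2.1 hm.1
      rw [hsum] at hzc
      obtain ⟨h1, h2⟩ := hpbf (z i) hzi r hzc
      intro a
      by_cases hai : a = i
      · rw [hai]
        exact h1
      by_cases haj : a = j
      · rw [haj, hzj]
        exact hP.zero_cl
      rw [hr a hai haj]
      exact hP.cl_smul (PES.cl hw.1 a) (h2 a hai haj)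
    · intro a ha
      by_cases haj : a = j
      · rw [haj]
        exact LL_j w hij L
      · exact absurd (bb_o haj) (ha a)
    · intro m hm z hz
      by_cases hmj : m = j
      · exfalso
        apply hij
        rw [← hmj]
        apply hm i
        rw [hmj, bb_j, bb_o hij]
      by_cases hmi : m = i
      · exfalso
        apply hij
        rw [← hmi]
        apply Eq.symm
        apply hm j
        rw [hmi, bb_j, bb_o hij]
      rw [bb_o hmj, LL_o w hmi hmj] at hz
      obtain ⟨c, hc⟩ := Submodule.mem_span_singleton.mp hz
      exact ⟨c, hc.symm⟩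
    · intro m l hml hb
      have hbi : bb i j m = i := by
        by_cases hmj : m = j
        · rw [hmj, bb_j]
        by_cases hlj : l = j
        · rw [hb, hlj, bb_j]
        rw [bb_o hmj, bb_o hlj] at hb
        exact absurd hb hml
      rw [hbi, LL_i]
      exact hL
    · intro a b d hab hbd
      by_cases haj : a = j
      · by_cases hbj : b = j
        · exact Or.inl (haj.trans hbj.symm)
        · by_cases hdj : d = j
          · exact Or.inr (Or.inr (haj.trans hdj.symm))
          · rw [bb_o hbj, bb_o hdj] at hbd
            exact Or.inr (Or.inl hbd)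
      · by_cases hbj : b = j
        · by_cases hdj : d = j
          · exact Or.inr (Or.inl (hbj.trans hdj.symm))
          · have h1 := hab.trans hbd
            rw [bb_o haj, bb_o hdj] at h1
            exact Or.inr (Or.inr h1)
        · rw [bb_o haj, bb_o hbj] at hab
          exact Or.inl hab
  have hstr : Strict C (LL w i j L) := PFJ.H82.stcF n C Γ hC K hK hmax _ w _ hbox
  have h1 := hstr i x (by rw [LL_i]; exact hx) y (by rw [LL_i]; exact hy) hxc hyc hind
  rwa [LL_i] at h1

end Pool.Agent.NTW.H90
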